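import Pool.Agent.P.MP_38292b_an.Main

open Pool.Agent.P.MP_38292b_an

theorem Pool.Agent.Results.MP_38292b_an.NotLU.result :
    ∃ (E : Type) (_ : AddCommGroup E) (_ : Module ℝ E) (_ : TopologicalSpace E),
      IsTopologicalAddGroup E ∧ ContinuousSMul ℝ E ∧ LocallyConvexSpace ℝ E ∧ T2Space E ∧
      ∃ K : Set E, IsChoquetSimplex K ∧
        ∃ f : K.extremePoints ℝ → ℕ∞, (∀ e, f e = 1 ∨ f e = 2) ∧ IsLU f ∧
          ∃ F : K → ℕ∞, IsAdditiveExtension K f F ∧ ¬ IsLU F :=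
  Pool.Agent.P.MP_38292b_an.main
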